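import Pool.Agent.Helper32.AG.Goals

set_option autoImplicit false

namespace Pool.Agent.Helper82.AG

open Pool.Agent.Helper32.AG

universe u

open scoped commutatorElement

theorem mem_kst {G : Type u} [Group G] (V : Subgroup G) [V.Normal]
    (hV : ∀ a ∈ V, ∀ b ∈ V, a * b = b * a) (v : V) (x : G) :
    (QuotientGroup.mk x : G ⧸ V) ∈ Kst V (v : G) ↔ (v : G) * x = x * v := by
  unfold Kst
  constructor
  · rintro ⟨c, hc, hcx⟩
    rw [SetLike.mem_coe, Subgroup.mem_centralizer_singleton_iff] at hc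
    have h1 : c⁻¹ * x ∈ V := QuotientGroup.eq.1 hcx
    have h2 := hV _ h1 _ v.2
    calc (v : G) * x = (v * c) * (c⁻¹ * x) := by group
      _ = (c * v) * (c⁻¹ * x) := by rw [hc]
      _ = c * (v * (c⁻¹ * x)) := by group
      _ = c * ((c⁻¹ * x) * v) := by rw [h2]
      _ = x * v := by group
  · intro h
    exact ⟨x, by rw [SetLike.mem_coe, Subgroup.mem_centralizer_singleton_iff]; exact h.symm, rfl⟩

theorem mem_cc {G : Type u} [Group G] (V : Subgroup G) (x y c : G) :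
    c ∈ Cc V x y ↔ c ∈ V ∧ c * x = x * c ∧ c * y = y * c := by
  unfold Cc
  rw [Subgroup.mem_inf, Subgroup.mem_centralizer_iff]
  constructor
  · rintro ⟨h, h2⟩
    exact ⟨h, (h2 x (by simp)).symm, (h2 y (by simp)).symm⟩
  · rintro ⟨h, h2, h3⟩
    refine ⟨h, ?_⟩
    rintro g (rfl | hg)
    · exact h2.symm
    · rw [Set.mem_singleton_iff] at hg
      rw [hg]
      exact h3.symm

theorem frm : FrmStmt.{u} := by
  intro G _ _ V _ hV hP
  classical
  have _ : Fintype V := Fintype.ofFinite V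
  have _ : Fintype (G ⧸ V) := Fintype.ofFinite _
  have _ : Fintype {p : (G ⧸ V) × (G ⧸ V) // Commute p.1 p.2} := Fintype.ofFinite _
  -- fibres
  let F : {p : (G ⧸ V) × (G ⧸ V) // Commute p.1 p.2} → Type u := fun p =>
    {q : V × V // Commute (p.1.1.out * (q.1 : G)) (p.1.2.out * (q.2 : G))}
  have e1 : {p : G × G // Commute p.1 p.2} ≃ Σ p, F p := by
    refine (Equiv.ofBijective (fun r : (Σ p, F p) =>
      (⟨(r.1.1.1.out * (r.2.1.1 : G), r.1.1.2.out * (r.2.1.2 : G)), r.2.2⟩ :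
        {p : G × G // Commute p.1 p.2})) ⟨?_, ?_⟩).symm
    · rintro ⟨⟨⟨X, Y⟩, h⟩, ⟨⟨a, b⟩, hq⟩⟩ ⟨⟨⟨X', Y'⟩, h'⟩, ⟨⟨a', b'⟩, hq'⟩⟩ heq
      have h1 : X.out * (a : G) = X'.out * (a' : G) := congrArg (fun t => t.1.1) heq
      have h2 : Y.out * (b : G) = Y'.out * (b' : G) := congrArg (fun t => t.1.2) heq
      have g : ∀ (Z : G ⧸ V) (c : V), (QuotientGroup.mk (Z.out * (c : G)) : G ⧸ V) = Z := by
        intro Z c
        rw [QuotientGroup.mk_mul_of_mem _ c.2, QuotientGroup.out_eq']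
      obtain rfl : X = X' := by rw [← g X a, h1, g X' a']
      obtain rfl : Y = Y' := by rw [← g Y b, h2, g Y' b']
      obtain rfl : a = a' := Subtype.ext (mul_left_cancel h1)
      obtain rfl : b = b' := Subtype.ext (mul_left_cancel h2)
      rfl
    · rintro ⟨⟨g, h⟩, hc⟩
      have m1 : (QuotientGroup.mk g : G ⧸ V).out⁻¹ * g ∈ V :=
        QuotientGroup.eq.1 (QuotientGroup.out_eq' _)
      have m2 : (QuotientGroup.mk h : G ⧸ V).out⁻¹ * h ∈ V :=
        QuotientGroup.eq.1 (QuotientGroup.out_eq' _)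
      refine ⟨⟨⟨(QuotientGroup.mk g, QuotientGroup.mk h), ?_⟩, ⟨(⟨_, m1⟩, ⟨_, m2⟩), ?_⟩⟩, ?_⟩
      · exact hc.map (QuotientGroup.mk' V)
      · simpa using hc
      · apply Subtype.ext
        simp
  have e2 : (Σ p : {p : (G ⧸ V) × (G ⧸ V) // Commute p.1 p.2}, Cc V p.1.1.out p.1.2.out) ≃
      Σ v : V, {p : Kst V (v : G) × Kst V (v : G) // Commute p.1 p.2} := by
    have hk : ∀ (X : G ⧸ V) (v : V), X ∈ Kst V (v : G) ↔ (v : G) * X.out = X.out * v := by
      intro X v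
      rw [← mem_kst V hV v X.out, QuotientGroup.out_eq']
    exact
      { toFun := fun r => ⟨⟨r.2.1, ((mem_cc V _ _ _).1 r.2.2).1⟩,
          ⟨(⟨r.1.1.1, (hk _ _).2 ((mem_cc V _ _ _).1 r.2.2).2.1⟩,
            ⟨r.1.1.2, (hk _ _).2 ((mem_cc V _ _ _).1 r.2.2).2.2⟩), Subtype.ext r.1.2⟩⟩
        invFun := fun r => ⟨⟨(r.2.1.1.1, r.2.1.2.1), congrArg Subtype.val r.2.2⟩,
          ⟨r.1.1, (mem_cc V _ _ _).2 ⟨r.1.2, (hk _ _).1 r.2.1.1.2, (hk _ _).1 r.2.1.2.2⟩⟩⟩
        left_inv := fun r => rfl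
        right_inv := fun r => rfl }
  have c1 : k G * Nat.card G = ∑ p : {p : (G ⧸ V) × (G ⧸ V) // Commute p.1 p.2},
      Nat.card V * Nat.card (Cc V p.1.1.out p.1.2.out) := by
    unfold k
    rw [← card_comm_eq_card_conjClasses_mul_card, Nat.card_congr e1, Nat.card_sigma]
    refine Finset.sum_congr rfl fun p _ => ?_
    refine hP _ _ ?_
    have := p.2
    rw [← QuotientGroup.eq_one_iff]
    have h1 : ((⁅p.1.1.out, p.1.2.out⁆ : G) : G ⧸ V) = ⁅p.1.1, p.1.2⁆ := by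
      rw [commutatorElement_def, commutatorElement_def]
      simp
    rw [h1, commutatorElement_eq_one_iff_commute]
    exact this
  have c2 : ∑ p : {p : (G ⧸ V) × (G ⧸ V) // Commute p.1 p.2}, Nat.card (Cc V p.1.1.out p.1.2.out) =
      ∑ v : V, Nat.card (Kst V (v : G)) * k (Kst V (v : G)) := by
    rw [← Nat.card_sigma, Nat.card_congr e2, Nat.card_sigma]
    refine Finset.sum_congr rfl fun v _ => ?_
    unfold k
    rw [card_comm_eq_card_conjClasses_mul_card, mul_comm]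
  rw [← Finset.mul_sum, c2] at c1
  rw [finsum_eq_sum_of_fintype]
  have c3 := Subgroup.card_eq_card_quotient_mul_card_subgroup V
  have c4 : 0 < Nat.card V := Nat.card_pos
  rw [c3] at c1
  refine Nat.eq_of_mul_eq_mul_left c4 ?_
  rw [← c1]
  ring

end Pool.Agent.Helper82.AG
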