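import Pool.Agent.Helper32.AG.Goals

set_option autoImplicit false

namespace Pool.Agent.Helper82.AG

open Pool.Agent.Helper32.AG

universe u

open scoped commutatorElement

theorem pct : PctStmt.{u} := by
  intro G _ _ V _ hV x y hxy
  let _ : CommGroup V :=
    { (inferInstance : Group V) with mul_comm := fun a b => Subtype.ext (hV a a.2 b b.2) }
  let ψ : G → (V →* V) := fun g => MonoidHom.id V / (MulAut.conjNormal g).toMonoidHom
  have hψ : ∀ (g : G) (v : V), ((ψ g v : V) : G) = ⁅(v : G), g⁆ := by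
    intro g v
    have : ψ g v = v * (MulAut.conjNormal g v)⁻¹ := by
      simp only [ψ, MonoidHom.div_apply, MonoidHom.id_apply, div_eq_mul_inv]
      rfl
    rw [this, Subgroup.coe_mul, Subgroup.coe_inv, MulAut.conjNormal_apply, commutatorElement_def]
    group
  let θ : V × V →* V := (ψ x).comp (MonoidHom.snd V V) / (ψ y).comp (MonoidHom.fst V V)
  have hθ : ∀ q : V × V, ((θ q : V) : G) = ⁅(q.2 : G), x⁆ * ⁅(q.1 : G), y⁆⁻¹ := by
    intro q
    have : θ q = ψ x q.2 * (ψ y q.1)⁻¹ := by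
      simp only [θ, MonoidHom.div_apply, div_eq_mul_inv]
      rfl
    rw [this, Subgroup.coe_mul, Subgroup.coe_inv, hψ, hψ]
  have hW : θ.range.map V.subtype = Wc V x y := by
    apply le_antisymm
    · rintro g ⟨v, ⟨q, rfl⟩, rfl⟩
      rw [Subgroup.coe_subtype, hθ]
      exact mul_mem (Subgroup.subset_closure ⟨q.2, q.2.2, Or.inl rfl⟩)
        (inv_mem (Subgroup.subset_closure ⟨q.1, q.1.2, Or.inr rfl⟩))
    · unfold Wc
      rw [Subgroup.closure_le]
      rintro g ⟨v, hv, rfl | rfl⟩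
      · refine ⟨θ (1, ⟨v, hv⟩), ⟨_, rfl⟩, ?_⟩
        rw [Subgroup.coe_subtype, hθ]
        simp
      · refine ⟨(θ (⟨v, hv⟩, 1))⁻¹, ⟨_, map_inv θ _⟩, ?_⟩
        rw [Subgroup.coe_subtype, Subgroup.coe_inv, hθ]
        simp
  have hcW : Nat.card (Wc V x y) = Nat.card θ.range := by
    rw [← hW]
    exact Nat.card_congr ((θ.range.equivMapOfInjective V.subtype V.subtype_injective).symm.toEquiv)
  rw [hcW]
  -- the constant
  have hz : ⁅x, y⁆ ∈ θ.range.map V.subtype := by rw [hW]; exact hxy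
  obtain ⟨z, ⟨q₀, hq₀⟩, hz⟩ := hz
  have hz' : (θ q₀ : G) = ⁅x, y⁆ := by rw [hq₀]; exact hz
  let E : V × V ≃ V × V :=
    Equiv.prodCongr (MulAut.conjNormal x).toEquiv (MulAut.conjNormal y).toEquiv
  have key : ∀ q : V × V, Commute (x * (q.1 : G)) (y * (q.2 : G)) ↔ θ (E q) = θ q₀ := by
    rintro ⟨a, b⟩
    have e1 : (((E (a, b)).1 : V) : G) = x * a * x⁻¹ := MulAut.conjNormal_apply x a
    have e2 : (((E (a, b)).2 : V) : G) = y * b * y⁻¹ := MulAut.conjNormal_apply y b
    rw [← Subtype.coe_inj, hz', hθ, e1, e2]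
    have hN : V.Normal := inferInstance
    have m1 : y * (b : G) * y⁻¹ ∈ V := hN.conj_mem _ b.2 y
    have m2 : x * (y * (b : G) * y⁻¹)⁻¹ * x⁻¹ ∈ V := hN.conj_mem _ (inv_mem m1) x
    have m3 : x * (a : G) * x⁻¹ ∈ V := hN.conj_mem _ a.2 x
    have m4 : y * (x * (a : G) * x⁻¹) * y⁻¹ ∈ V := hN.conj_mem _ m3 y
    generalize hP : y * (b : G) * y⁻¹ = P at m1 m2 ⊢
    generalize hA : x * (a : G) * x⁻¹ = A at m3 m4 ⊢
    generalize hR : x * P⁻¹ * x⁻¹ = R at m2
    generalize hT : y * A * y⁻¹ = T at m4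
    have c1 : x * (a : G) * (y * b) = A * R⁻¹ * (x * y) := by
      rw [← hA, ← hR, ← hP]; group
    have c2 : y * (b : G) * (x * a) = P * T * (y * x) := by
      rw [← hT, ← hA, ← hP]; group
    have c3 : ⁅P, x⁆ = P * R := by
      rw [← hR, commutatorElement_def]; group
    have c4 : ⁅A, y⁆⁻¹ = T * A⁻¹ := by
      rw [← hT, commutatorElement_def]; group
    have c5 : P * R * (T * A⁻¹) = R * A⁻¹ * (P * T) := by
      have := (show (⟨P, m1⟩ : V) * ⟨R, m2⟩ * (⟨T, m4⟩ * (⟨A, m3⟩ : V)⁻¹) =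
        ⟨R, m2⟩ * (⟨A, m3⟩ : V)⁻¹ * (⟨P, m1⟩ * ⟨T, m4⟩) by
          simp only [mul_comm, mul_left_comm, mul_assoc])
      simpa using congrArg Subtype.val this
    unfold Commute SemiconjBy
    rw [c1, c2, c3, c4, c5, commutatorElement_def]
    constructor
    · intro h
      have h' : P * T = A * R⁻¹ * (x * y) * (y * x)⁻¹ := by rw [h]; group
      rw [h']; group
    · intro h
      have h' : x * y = R * A⁻¹ * (P * T) * (y * x) := by rw [h]; group
      rw [h']; group
  have h1 : Nat.card {q : V × V // Commute (x * (q.1 : G)) (y * (q.2 : G))} =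
      Nat.card θ.ker := by
    have f1 : {q : V × V // Commute (x * (q.1 : G)) (y * (q.2 : G))} ≃
        {q : V × V // θ q = θ q₀} := E.subtypeEquiv key
    have f2 : {q : V × V // θ q = θ q₀} ≃ θ.ker := θ.fiberEquivKer q₀
    exact Nat.card_congr (f1.trans f2)
  rw [h1]
  have h2 := Subgroup.card_eq_card_quotient_mul_card_subgroup θ.ker
  have h3 : Nat.card ((V × V) ⧸ θ.ker) = Nat.card θ.range :=
    Nat.card_congr (QuotientGroup.quotientKerEquivRange θ).toEquiv
  rw [h3, Nat.card_prod] at h2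
  rw [pow_two, h2, mul_comm]

end Pool.Agent.Helper82.AG
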